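import Pool.Agent.Helper99.ZB.Bridge
import Pool.Agent.Helper76.Conway.Parity

/-!
# From the Conway polynomial of a positive word to a real polynomial in `t = z ^ 2`

`half p` is `p` divided by its lowest power of `z`, written in `t = z ^ 2`.
-/

set_option autoImplicit false

namespace Pool.Agent.Helper57.EV

open Polynomial Pool.Agent.Helper76.Conway Pool.Agent.Helper76.Conway.Top Pool.Agent.Helper99.ZB

/-- `p` divided by its lowest power of `z`, as a real polynomial in `z ^ 2` -/
noncomputable def half (p : ℤ[X]) : ℝ[X] :=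
  ∑ k ∈ Finset.range (p.natDegree + 1),
    C ((p.coeff (p.natTrailingDegree + 2 * k) : ℤ) : ℝ) * X ^ k

theorem half_coeff (p : ℤ[X]) (k : ℕ) :
    (half p).coeff k = ((p.coeff (p.natTrailingDegree + 2 * k) : ℤ) : ℝ) := by
  unfold half
  rw [finset_sum_coeff]
  simp only [coeff_C_mul, coeff_X_pow, mul_ite, mul_one, mul_zero]
  rw [Finset.sum_ite_eq (Finset.range (p.natDegree + 1)) k]
  split_ifs with h
  · rfl
  · rw [Finset.mem_range] at h
    rw [coeff_eq_zero_of_natDegree_lt (by omega)]
    simp

section parity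

variable {p : ℤ[X]} {μ : ℕ} (h0 : p ≠ 0) (hpar : ∀ j, (j + μ) % 2 = 1 → p.coeff j = 0)

include h0 hpar

theorem trailing_mod : (p.natTrailingDegree + μ) % 2 = 0 := by
  by_contra h
  have h1 : p.coeff p.natTrailingDegree ≠ 0 := by
    have := mt trailingCoeff_eq_zero.1 h0
    exact this
  exact h1 (hpar _ (by omega))

theorem map_eq : p.map (Int.castRingHom ℝ) = X ^ p.natTrailingDegree * expand ℝ 2 (half p) := by
  have hm := trailing_mod h0 hpar
  ext j
  rw [coeff_X_pow_mul', coeff_expand (by norm_num), coeff_map]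
  split_ifs with h1 h2
  · rw [half_coeff]
    have : p.natTrailingDegree + 2 * ((j - p.natTrailingDegree) / 2) = j := by omega
    rw [this]
    rfl
  · rw [hpar j (by omega)]
    simp
  · rw [coeff_eq_zero_of_lt_natTrailingDegree (by omega)]
    simp

/-- the value of `p` in terms of the value of `half p` -/
theorem aeval_half (z : ℂ) :
    aeval z p = z ^ p.natTrailingDegree * aeval (z ^ 2) (half p) := by
  have h1 : aeval z (p.map (Int.castRingHom ℝ)) = aeval z p := by
    rw [aeval_def, aeval_def, eval₂_map]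
    congr 1
  rw [← h1, map_eq h0 hpar, map_mul, map_pow, aeval_X, expand_aeval]

/-- log-concavity of `half p` gives log-concavity of every second coefficient of `p` -/
theorem lc_of_half (hlc : ∀ k, (half p).coeff k * (half p).coeff (k + 2) ≤
    (half p).coeff (k + 1) ^ 2) (j : ℤ) :
    cz p (j + 2) * cz p (j - 2) ≤ cz p j ^ 2 := by
  have hm := trailing_mod h0 hpar
  have hlow : ∀ i : ℤ, i < p.natTrailingDegree → cz p i = 0 := by
    intro i hi
    unfold cz
    split_ifs with h
    · exact coeff_eq_zero_of_lt_natTrailingDegree (by omega)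
    · rfl
  have hodd : ∀ i : ℤ, (i + p.natTrailingDegree) % 2 = 1 → cz p i = 0 := by
    intro i hi
    unfold cz
    split_ifs with h
    · exact hpar _ (by omega)
    · rfl
  by_cases h1 : (j + p.natTrailingDegree) % 2 = 1
  · rw [hodd (j - 2) (by omega), mul_zero]
    exact sq_nonneg _
  by_cases h2 : j - 2 < p.natTrailingDegree
  · rw [hlow (j - 2) h2, mul_zero]
    exact sq_nonneg _
  obtain ⟨k, hk⟩ : ∃ k : ℕ, j - 2 = p.natTrailingDegree + 2 * k :=
    ⟨((j - 2 - p.natTrailingDegree) / 2).toNat, by omega⟩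
  have hval : ∀ m : ℕ, cz p (p.natTrailingDegree + 2 * m) =
      p.coeff (p.natTrailingDegree + 2 * m) := by
    intro m
    have : ((p.natTrailingDegree : ℤ) + 2 * m) = ((p.natTrailingDegree + 2 * m : ℕ) : ℤ) := by
      push_cast
      rfl
    rw [this, cz_natCast]
  have e1 := hval k
  have e2 := hval (k + 1)
  have e3 := hval (k + 2)
  have f1 : j - 2 = (p.natTrailingDegree : ℤ) + 2 * (k : ℕ) := hk
  have f2 : j = (p.natTrailingDegree : ℤ) + 2 * ((k + 1 : ℕ) : ℤ) := by push_cast; omega
  have f3 : j + 2 = (p.natTrailingDegree : ℤ) + 2 * ((k + 2 : ℕ) : ℤ) := by push_cast; omega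
  rw [← f1] at e1
  rw [← f2] at e2
  rw [← f3] at e3
  rw [e1, e2, e3]
  have := hlc k
  rw [half_coeff, half_coeff, half_coeff] at this
  have h3 : p.coeff (p.natTrailingDegree + 2 * k) * p.coeff (p.natTrailingDegree + 2 * (k + 2)) ≤
      p.coeff (p.natTrailingDegree + 2 * (k + 1)) ^ 2 := by exact_mod_cast this
  rw [mul_comm]
  exact h3

end parity

section top

variable {p : ℤ[X]} {μ F : ℕ} (hP : TopC p μ F) (hpos : Le 0 p)

include hP

theorem ne_zero : p ≠ 0 := by
  rintro rfl
  have := hP.e0
  unfold E at this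
  rw [if_pos (by omega)] at this
  simp at this

theorem natDegree_p : p.natDegree = μ := by
  have h0 := hP.e0
  unfold E at h0
  rw [if_pos (by omega)] at h0
  apply le_antisymm
  · rw [natDegree_le_iff_coeff_eq_zero]
    intro j hj
    exact hP.deg j hj
  · apply le_natDegree_of_ne_zero
    have : p.coeff μ = 1 := h0
    rw [this]
    exact one_ne_zero

theorem trailing_le_deg : p.natTrailingDegree ≤ μ := by
  have := natTrailingDegree_le_natDegree p
  rwa [natDegree_p hP] at this

theorem exists_D : ∃ D, μ = p.natTrailingDegree + 2 * D := by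
  have h1 := trailing_mod (ne_zero hP) hP.par
  have h2 := trailing_le_deg hP
  exact ⟨(μ - p.natTrailingDegree) / 2, by omega⟩

theorem half_natDegree {D : ℕ} (hD : μ = p.natTrailingDegree + 2 * D) :
    (half p).natDegree = D ∧ (half p).coeff D = 1 := by
  have h1 : (half p).coeff D = 1 := by
    rw [half_coeff, ← hD]
    have h0 := hP.e0
    unfold E at h0
    rw [if_pos (by omega)] at h0
    have : p.coeff μ = 1 := h0
    rw [this]
    simp
  refine ⟨le_antisymm ?_ ?_, h1⟩
  · rw [natDegree_le_iff_coeff_eq_zero]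
    intro j hj
    rw [half_coeff, hP.deg _ (by omega)]
    simp
  · apply le_natDegree_of_ne_zero
    rw [h1]
    exact one_ne_zero

include hpos

omit hP in
theorem half_nonneg (k : ℕ) : 0 ≤ (half p).coeff k := by
  rw [half_coeff]
  have := hpos (p.natTrailingDegree + 2 * k)
  rw [coeff_zero] at this
  exact_mod_cast this

theorem half_zero : 1 ≤ (half p).coeff 0 := by
  rw [half_coeff, mul_zero, add_zero]
  have h1 : p.coeff p.natTrailingDegree ≠ 0 := mt trailingCoeff_eq_zero.1 (ne_zero hP)
  have h2 := hpos p.natTrailingDegree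
  rw [coeff_zero] at h2
  have h3 : 1 ≤ p.coeff p.natTrailingDegree := by omega
  exact_mod_cast h3

/-- log-concavity in the top range -/
theorem half_lc_top (hz : ∀ z : ℂ, aeval z p = 0 → ‖z‖ ^ 2 ≤ 8) {k : ℕ}
    (hk : 65 * (half p).natDegree ≤ F + 65 * (k + 1)) :
    (half p).coeff k * (half p).coeff (k + 2) ≤ (half p).coeff (k + 1) ^ 2 := by
  obtain ⟨D, hD⟩ := exists_D hP
  obtain ⟨h1, h2⟩ := half_natDegree hP hD
  rw [h1] at hk
  by_cases h3 : D < k + 2
  · rw [coeff_eq_zero_of_natDegree_lt (p := half p) (n := k + 2) (by omega), mul_zero]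
    exact sq_nonneg _
  · obtain ⟨i, hi⟩ : ∃ i, D = k + 2 + i := ⟨D - (k + 2), by omega⟩
    have hlc := logConcave_top hP hpos hz i (by omega)
    have e : ∀ m, m ≤ D → (half p).coeff (D - m) = ((E p μ m : ℤ) : ℝ) := by
      intro m hm
      rw [half_coeff]
      unfold E
      rw [if_pos (by omega)]
      congr 2
      omega
    have e0 := e i (by omega)
    have e1 := e (i + 1) (by omega)
    have e2 := e (i + 2) (by omega)
    rw [show D - i = k + 2 by omega] at e0
    rw [show D - (i + 1) = k + 1 by omega] at e1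
    rw [show D - (i + 2) = k by omega] at e2
    rw [e0, e1, e2]
    exact_mod_cast hlc

end top

section word

theorem sum_count {n : ℕ} {w : List ℕ} (hw : ∀ a ∈ w, a < n) :
    ∑ i ∈ Finset.range n, w.count i = w.length := by
  induction w with
  | nil => simp
  | cons a w ih =>
    have ha : a < n := hw a (by simp)
    simp only [List.count_cons, Finset.sum_add_distrib,
      ih fun b hb => hw b (List.mem_cons_of_mem _ hb), List.length_cons]
    congr 1
    simp [ha]

theorem length_le_FF {n : ℕ} {w : List ℕ} (hw : ∀ a ∈ w, a < n) :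
    w.length ≤ FF n w + 2 * n := by
  rw [← sum_count hw]
  unfold FF
  have : ∑ i ∈ Finset.range n, w.count i ≤ ∑ i ∈ Finset.range n, (((w.count i - 2) + al i w) + 2) :=
    Finset.sum_le_sum fun i _ => by omega
  rw [Finset.sum_add_distrib, Finset.sum_const, Finset.card_range, smul_eq_mul] at this
  omega

variable {G : ℕ → Type} [∀ n, Group (G n)] {sg : ∀ n, ℕ → G n} {N : ∀ n, G n → ℤ[X]}

/-- Everything about `half p` that does not use the location of the zeros in a strip. -/
theorem word (h : Mk G sg N) {n : ℕ} {w : List ℕ} (hw : ∀ a ∈ w, a < n)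
    (hf : ∀ a < n, a ∈ w) {p : ℤ[X]} (hp : p = N n (V (sg n) w)) :
    p ≠ 0 ∧ (∀ j, (j + (w.length - n)) % 2 = 1 → p.coeff j = 0) ∧
    (∀ k, 0 ≤ (half p).coeff k) ∧ 1 ≤ (half p).coeff 0 ∧
    2 * (half p).natDegree ≤ w.length ∧
    (∀ z : ℂ, aeval z p = z ^ p.natTrailingDegree * aeval (z ^ 2) (half p)) ∧
    (∀ k, 65 * (half p).natDegree + 2 * n ≤ w.length + 65 * (k + 1) →
      (half p).coeff k * (half p).coeff (k + 2) ≤ (half p).coeff (k + 1) ^ 2) := by
  obtain ⟨μ, h1, h2⟩ := h.topC n w hw hf
  have hpos := h.pos n w hw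
  rw [← hp] at h2 hpos
  have hμ : w.length - n = μ := by omega
  have hz : ∀ z : ℂ, aeval z p = 0 → ‖z‖ ^ 2 ≤ 8 := by
    intro z hz
    rw [hp] at hz
    exact zero_bound_eight h hw hf hz
  refine ⟨ne_zero h2, ?_, half_nonneg hpos, half_zero h2 hpos, ?_, aeval_half (ne_zero h2) h2.par, ?_⟩
  · rw [hμ]
    exact h2.par
  · obtain ⟨D, hD⟩ := exists_D h2
    rw [(half_natDegree h2 hD).1]
    omega
  · intro k hk
    have := length_le_FF hw
    exact half_lc_top h2 hpos hz (by omega)

end word

end Pool.Agent.Helper57.EV
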