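import Pool.Agent.Helper57.EV.Bridge

/-!
# The two-sided bound on `half p` in a strip, from the bound on `det (1 - W)`
-/

set_option autoImplicit false

namespace Pool.Agent.Helper57.EV

open Polynomial Matrix Pool.Agent.Helper76.Conway Pool.Agent.Helper76.Conway.Top
  Pool.Agent.Helper99.ZB

section sinh

theorem norm_sinh_sq (x y : ℝ) :
    ‖Complex.sinh (x + y * Complex.I)‖ ^ 2 = Real.sinh x ^ 2 + Real.sin y ^ 2 := by
  have e : Complex.sinh (x + y * Complex.I) =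
      ((Real.sinh x * Real.cos y : ℝ) : ℂ) + ((Real.cosh x * Real.sin y : ℝ) : ℂ) * Complex.I := by
    rw [Complex.sinh_add, Complex.cosh_mul_I, Complex.sinh_mul_I]
    push_cast
    ring
  rw [e, ← Complex.normSq_eq_norm_sq, Complex.normSq_add_mul_I]
  have h1 := Real.cosh_sq x
  have h2 := Real.sin_sq_add_cos_sq y
  have h3 : Real.cos y ^ 2 = 1 - Real.sin y ^ 2 := by linarith
  rw [mul_pow, mul_pow, h1, h3]
  ring

theorem norm_sinh_ge {x : ℝ} (hx : 0 ≤ x) (y : ℝ) :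
    x ≤ ‖Complex.sinh (x + y * Complex.I)‖ := by
  have h1 := norm_sinh_sq x y
  have h2 : x ≤ Real.sinh x := Real.self_le_sinh_iff.2 hx
  have h3 : x ^ 2 ≤ ‖Complex.sinh (x + y * Complex.I)‖ ^ 2 := by
    rw [h1]
    nlinarith [sq_nonneg (Real.sin y)]
  exact (sq_le_sq₀ hx (norm_nonneg _)).1 h3

theorem norm_sinh_le {x : ℝ} (hx : 0 ≤ x) (y : ℝ) :
    ‖Complex.sinh (x + y * Complex.I)‖ ≤ Real.exp x := by
  have h1 := norm_sinh_sq x y
  have h2 := Real.cosh_sq x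
  have h3 := Real.sin_sq_le_one y
  have h4 : ‖Complex.sinh (x + y * Complex.I)‖ ^ 2 ≤ Real.cosh x ^ 2 := by
    rw [h1, h2]
    linarith
  have h5 : ‖Complex.sinh (x + y * Complex.I)‖ ≤ Real.cosh x :=
    (sq_le_sq₀ (norm_nonneg _) (Real.cosh_pos x).le).1 h4
  have h6 := Real.cosh_add_sinh x
  have h7 : 0 ≤ Real.sinh x := Real.sinh_nonneg_iff.2 hx
  linarith

end sinh

section U

/-- the parameter -/
theorem norm_s (x y : ℝ) : ‖Complex.exp (-(x + y * Complex.I))‖ = Real.exp (-x) := by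
  rw [Complex.norm_exp]
  simp

theorem s_inv_sub (φ : ℂ) : (Complex.exp (-φ))⁻¹ - Complex.exp (-φ) = 2 * Complex.sinh φ := by
  rw [← Complex.exp_neg, neg_neg, Complex.two_sinh]

theorem U_eq (φ : ℂ) (n : ℕ) (h : Complex.sinh φ ≠ 0) :
    U (Complex.exp (-φ)) n = Complex.sinh ((n + 1) * φ) / Complex.sinh φ := by
  obtain ⟨s, hs⟩ : ∃ s, s = Complex.exp (-φ) := ⟨_, rfl⟩
  have hs0 : s ≠ 0 := by rw [hs]; exact Complex.exp_ne_zero _
  have h1 : s⁻¹ - s = 2 * Complex.sinh φ := by rw [hs]; exact s_inv_sub φ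
  have h2 : (s ^ (n + 1))⁻¹ - s ^ (n + 1) = 2 * Complex.sinh ((n + 1) * φ) := by
    have : s ^ (n + 1) = Complex.exp (-((n + 1) * φ)) := by
      rw [hs, ← Complex.exp_nat_mul]
      congr 1
      push_cast
      ring
    rw [this]
    exact s_inv_sub _
  rw [← hs]
  unfold U
  have h3 : s ^ n * (1 - s ^ 2) = s ^ (n + 1) * (2 * Complex.sinh φ) := by
    rw [← h1]
    field_simp
    ring
  have h4 : 1 - s ^ (2 * (n + 1)) = s ^ (n + 1) * (2 * Complex.sinh ((n + 1) * φ)) := by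
    rw [← h2, mul_sub, mul_inv_cancel₀ (pow_ne_zero _ hs0)]
    ring
  rw [h3, h4]
  have h5 : s ^ (n + 1) ≠ 0 := pow_ne_zero _ hs0
  field_simp

theorem U_norm_ge {x y : ℝ} (n : ℕ) (hx : 0 < x) (hy : |y| * (2 * (n + 1)) ≤ Real.pi) :
    1 ≤ ‖U (Complex.exp (-(x + y * Complex.I))) n‖ := by
  have h0 : 0 < ‖Complex.sinh (x + y * Complex.I)‖ := lt_of_lt_of_le hx (norm_sinh_ge hx.le y)
  rw [U_eq _ _ (norm_pos_iff.1 h0), norm_div, one_le_div h0]
  have e : ((n : ℂ) + 1) * (x + y * Complex.I) =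
      (((n + 1) * x : ℝ) : ℂ) + (((n + 1) * y : ℝ) : ℂ) * Complex.I := by
    push_cast
    ring
  have h1 := norm_sinh_sq x y
  have h2 := norm_sinh_sq ((n + 1) * x) ((n + 1) * y)
  rw [← e] at h2
  apply (sq_le_sq₀ (norm_nonneg _) (norm_nonneg _)).1
  rw [h1, h2]
  have hn : (0 : ℝ) ≤ n := Nat.cast_nonneg n
  have h3 : Real.sinh x ≤ Real.sinh ((n + 1) * x) := by
    rw [Real.sinh_le_sinh]
    nlinarith
  have h4 : 0 ≤ Real.sinh x := Real.sinh_nonneg_iff.2 hx.le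
  have h5 : Real.sin |y| ≤ Real.sin ((n + 1) * |y|) := by
    have hy0 := abs_nonneg y
    apply Real.sin_le_sin_of_le_of_le_pi_div_two
    · have := Real.pi_pos
      linarith
    · nlinarith
    · nlinarith
  have h6 : 0 ≤ Real.sin |y| := by
    apply Real.sin_nonneg_of_nonneg_of_le_pi (abs_nonneg y)
    have hy0 := abs_nonneg y
    nlinarith
  have h7 : Real.sin |y| ^ 2 = Real.sin y ^ 2 := by
    rcases abs_choice y with h | h
    · rw [h]
    · rw [h, Real.sin_neg, neg_sq]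
  have h8 : Real.sin ((n + 1) * |y|) ^ 2 = Real.sin ((n + 1) * y) ^ 2 := by
    rcases abs_choice y with h | h
    · rw [h]
    · rw [h, mul_neg, Real.sin_neg, neg_sq]
  have h9 := pow_le_pow_left₀ h4 h3 2
  have h10 := pow_le_pow_left₀ h6 h5 2
  rw [h7, h8] at h10
  linarith

theorem U_norm_le {x y : ℝ} (n : ℕ) (hx : 0 < x) :
    ‖U (Complex.exp (-(x + y * Complex.I))) n‖ ≤ (n + 1) * Real.exp (n * x) := by
  obtain ⟨s, hs⟩ : ∃ s, s = Complex.exp (-((x : ℂ) + y * Complex.I)) := ⟨_, rfl⟩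
  have hns : ‖s‖ = Real.exp (-x) := by rw [hs]; exact norm_s x y
  have hs0 : s ≠ 0 := by rw [hs]; exact Complex.exp_ne_zero _
  have hs1 : ‖s‖ < 1 := by
    rw [hns]
    exact Real.exp_lt_one_iff.2 (by linarith)
  have h2 : 1 - s ^ 2 ≠ 0 := by
    intro h
    have : ‖s ^ 2‖ = 1 := by rw [← sub_eq_zero.1 h]; simp
    rw [norm_pow] at this
    exact absurd this (pow_lt_one₀ (norm_nonneg _) hs1 (by norm_num)).ne
  have e : U s n = (s ^ n)⁻¹ * ∑ i ∈ Finset.range (n + 1), (s ^ 2) ^ i := by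
    have h3 := geom_sum_mul_neg (s ^ 2) (n + 1)
    unfold U
    rw [pow_mul, ← h3]
    have : s ^ n ≠ 0 := pow_ne_zero _ hs0
    field_simp
  rw [← hs, e, norm_mul, norm_inv, norm_pow, hns]
  have h3 : ‖∑ i ∈ Finset.range (n + 1), (s ^ 2) ^ i‖ ≤ n + 1 := by
    refine (norm_sum_le _ _).trans ?_
    have : ∑ i ∈ Finset.range (n + 1), ‖(s ^ 2) ^ i‖ ≤ ∑ _i ∈ Finset.range (n + 1), (1 : ℝ) := by
      refine Finset.sum_le_sum fun i _ => ?_
      rw [norm_pow, norm_pow]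
      exact pow_le_one₀ (by positivity) (pow_le_one₀ (norm_nonneg _) hs1.le)
    refine this.trans ?_
    simp
  have h4 : (Real.exp (-x) ^ n)⁻¹ = Real.exp (n * x) := by
    rw [← Real.exp_nat_mul, ← Real.exp_neg]
    congr 1
    ring
  rw [h4, mul_comm]
  exact mul_le_mul_of_nonneg_right h3 (Real.exp_pos _).le

end U

section link

variable {G : ℕ → Type} [∀ n, Group (G n)] {sg : ∀ n, ℕ → G n} {N : ∀ n, G n → ℤ[X]}

/-- the size of the Conway polynomial in terms of the determinant -/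
theorem norm_aeval (h : Mk G sg N) {n : ℕ} {w : List ℕ} (hw : ∀ a ∈ w, a < n) {x y : ℝ}
    (hx : 0 < x) :
    ‖aeval (2 * Complex.sinh (x + y * Complex.I)) (N n (V (sg n) w))‖ *
      ‖U (Complex.exp (-(x + y * Complex.I))) n‖ =
      ‖det (1 - W (Complex.exp (-(x + y * Complex.I))) n w)‖ * Real.exp (w.length * x) := by
  obtain ⟨s, hs⟩ : ∃ s, s = Complex.exp (-((x : ℂ) + y * Complex.I)) := ⟨_, rfl⟩
  have hns : ‖s‖ = Real.exp (-x) := by rw [hs]; exact norm_s x y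
  have hs0 : s ≠ 0 := by rw [hs]; exact Complex.exp_ne_zero _
  have hs1 : ‖s‖ < 1 := by
    rw [hns]
    exact Real.exp_lt_one_iff.2 (by linarith)
  have h1 := eval_eq h hs0 hs1 n w hw
  have h2 : s⁻¹ - s = 2 * Complex.sinh (x + y * Complex.I) := by rw [hs]; exact s_inv_sub _
  rw [h2] at h1
  rw [← hs, ← h1, norm_mul, norm_mul, norm_pow, hns]
  have h3 : Real.exp (-x) ^ w.length * Real.exp (w.length * x) = 1 := by
    rw [← Real.exp_nat_mul, ← Real.exp_add]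
    have : (w.length : ℝ) * -x + w.length * x = 0 := by ring
    rw [this, Real.exp_zero]
  linear_combination (-(‖aeval (2 * Complex.sinh (x + y * Complex.I)) (N n (V (sg n) w))‖ *
    ‖U s n‖)) * h3

/-- upper bound for the value of a polynomial with non negative coefficients -/
theorem norm_aeval_le {P : ℝ[X]} (hP : ∀ k, 0 ≤ P.coeff k) {z : ℂ} {r : ℝ} (hz : ‖z‖ ≤ r) :
    ‖aeval z P‖ ≤ P.eval r := by
  rw [aeval_eq_sum_range, eval_eq_sum_range]
  refine (norm_sum_le _ _).trans (Finset.sum_le_sum fun k _ => ?_)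
  rw [norm_smul, norm_pow, Real.norm_of_nonneg (hP k)]
  exact mul_le_mul_of_nonneg_left (pow_le_pow_left₀ (norm_nonneg _) hz k) (hP k)

/-- lower bound for the determinant on a real interval: the order at `0` is at most `n` -/
theorem trailing_le (h : Mk G sg N) {n : ℕ} {w : List ℕ} (hw : ∀ a ∈ w, a < n)
    (hf : ∀ a < n, a ∈ w) {Φ δ : ℝ} (hΦ : 0 < Φ) (hδ : 0 < δ)
    (hdet : ∀ x : ℝ, 0 < x → x ≤ Φ →
      (δ * x) ^ n ≤ ‖det (1 - W (Complex.exp (-(x + (0 : ℝ) * Complex.I))) n w)‖) :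
    (N n (V (sg n) w)).natTrailingDegree ≤ n := by
  obtain ⟨p, hp⟩ : ∃ p, p = N n (V (sg n) w) := ⟨_, rfl⟩
  obtain ⟨hp0, hpar, hnn, h1, -, heval, -⟩ := word h hw hf hp
  rw [← hp]
  by_contra hcon
  push Not at hcon
  obtain ⟨M, hM⟩ : ∃ M, M = (half p).eval 1 := ⟨_, rfl⟩
  have hM0 : 0 ≤ M := by
    rw [hM, eval_eq_sum_range]
    exact Finset.sum_nonneg fun k _ => mul_nonneg (hnn k) (by simp)
  have key : ∀ x : ℝ, 0 < x → x ≤ Φ → x ≤ 1 / 6 →
      δ ^ n ≤ x * (M * 6 ^ (n + 1) * ((n + 1) * Real.exp n)) := by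
    intro x hx hxΦ hx1
    have e1 := norm_aeval h hw (x := x) (y := 0) hx
    rw [← hp] at e1
    have e2 := hdet x hx hxΦ
    have e3 := U_norm_le (y := 0) n hx
    have e4 := heval (2 * Complex.sinh (x + (0 : ℝ) * Complex.I))
    have hexp1 : Real.exp x ≤ 3 := by
      have : Real.exp x ≤ Real.exp 1 := Real.exp_le_exp.2 (by linarith)
      have := Real.exp_one_lt_d9
      linarith
    have hsx : ‖2 * Complex.sinh (x + (0 : ℝ) * Complex.I)‖ ≤ 6 * x := by
      have e5 : Complex.sinh (x + (0 : ℝ) * Complex.I) = ((Real.sinh x : ℝ) : ℂ) := by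
        simp
      rw [e5, norm_mul, Complex.norm_real, Real.norm_of_nonneg (Real.sinh_nonneg_iff.2 hx.le)]
      have e6 : Real.sinh x ≤ x * Real.exp x := by
        rw [Real.sinh_eq]
        have e7 : 1 - 2 * x ≤ Real.exp (-(2 * x)) := by
          have := Real.add_one_le_exp (-(2 * x))
          linarith
        have e8 : Real.exp (-x) = Real.exp x * Real.exp (-(2 * x)) := by
          rw [← Real.exp_add]
          congr 1
          ring
        have e9 := Real.exp_pos x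
        rw [e8]
        nlinarith
      have e10 : x * Real.exp x ≤ x * 3 := mul_le_mul_of_nonneg_left hexp1 hx.le
      simp only [Complex.norm_ofNat]
      linarith
    have hsx1 : ‖2 * Complex.sinh (x + (0 : ℝ) * Complex.I)‖ ≤ 1 := by linarith
    have e5 : ‖aeval ((2 * Complex.sinh (x + (0 : ℝ) * Complex.I)) ^ 2) (half p)‖ ≤ M := by
      rw [hM]
      apply norm_aeval_le hnn
      rw [norm_pow]
      exact pow_le_one₀ (norm_nonneg _) hsx1
    have e6 : ‖aeval (2 * Complex.sinh (x + (0 : ℝ) * Complex.I)) p‖ ≤ (6 * x) ^ (n + 1) * M := by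
      rw [e4, norm_mul, norm_pow]
      apply mul_le_mul _ e5 (norm_nonneg _) (by positivity)
      calc ‖2 * Complex.sinh (x + (0 : ℝ) * Complex.I)‖ ^ p.natTrailingDegree
          ≤ ‖2 * Complex.sinh (x + (0 : ℝ) * Complex.I)‖ ^ (n + 1) :=
            pow_le_pow_of_le_one (norm_nonneg _) hsx1 (by omega)
        _ ≤ (6 * x) ^ (n + 1) := pow_le_pow_left₀ (norm_nonneg _) hsx _
    have e7 : (1 : ℝ) ≤ Real.exp (w.length * x) := Real.one_le_exp (by positivity)
    have e8 : (δ * x) ^ n ≤ (6 * x) ^ (n + 1) * M * ((n + 1) * Real.exp (n * x)) := by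
      calc (δ * x) ^ n ≤ ‖det (1 - W (Complex.exp (-(x + (0 : ℝ) * Complex.I))) n w)‖ := e2
        _ ≤ ‖det (1 - W (Complex.exp (-(x + (0 : ℝ) * Complex.I))) n w)‖ *
            Real.exp (w.length * x) := le_mul_of_one_le_right (norm_nonneg _) e7
        _ = _ := e1.symm
        _ ≤ _ := mul_le_mul e6 e3 (norm_nonneg _) (by positivity)
    have e9 : Real.exp (n * x) ≤ Real.exp n := by
      rw [Real.exp_le_exp]
      have : (0 : ℝ) ≤ n := Nat.cast_nonneg n
      nlinarith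
    have e10 : (δ * x) ^ n ≤ (6 * x) ^ (n + 1) * M * ((n + 1) * Real.exp n) :=
      e8.trans (mul_le_mul_of_nonneg_left (mul_le_mul_of_nonneg_left e9 (by positivity))
        (by positivity))
    have hxn : 0 < x ^ n := by positivity
    have e11 : x ^ n * δ ^ n ≤ x ^ n * (x * (M * 6 ^ (n + 1) * ((n + 1) * Real.exp n))) := by
      rw [mul_pow] at e10
      calc x ^ n * δ ^ n = δ ^ n * x ^ n := mul_comm _ _
        _ ≤ _ := e10
        _ = _ := by ring
    exact le_of_mul_le_mul_left e11 hxn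
  obtain ⟨K, hK⟩ : ∃ K, K = M * 6 ^ (n + 1) * ((n + 1) * Real.exp n) := ⟨_, rfl⟩
  have hK0 : 0 ≤ K := by rw [hK]; positivity
  have hd : 0 < δ ^ n := by positivity
  obtain ⟨x, hx⟩ : ∃ x, x = min (min Φ (1 / 6)) (δ ^ n / (2 * (K + 1))) := ⟨_, rfl⟩
  have hx0 : 0 < x := by
    rw [hx]
    have : 0 < δ ^ n / (2 * (K + 1)) := by positivity
    exact lt_min (lt_min hΦ (by norm_num)) this
  have h2 := key x hx0 (by rw [hx]; exact (min_le_left _ _).trans (min_le_left _ _))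
    (by rw [hx]; exact (min_le_left _ _).trans (min_le_right _ _))
  rw [← hK] at h2
  have h3 : x ≤ δ ^ n / (2 * (K + 1)) := by rw [hx]; exact min_le_right _ _
  have h4 : x * K ≤ δ ^ n / (2 * (K + 1)) * K := mul_le_mul_of_nonneg_right h3 hK0
  have h5 : δ ^ n / (2 * (K + 1)) * K < δ ^ n := by
    rw [div_mul_eq_mul_div, div_lt_iff₀ (by positivity)]
    nlinarith
  linarith

/-- **H1.** The two-sided bound in a strip, from the bound on the determinant. -/
theorem H1 (n : ℕ) {Φ δ θ : ℝ} (hΦ : 0 < Φ) (hδ : 0 < δ) (hθ0 : 0 < θ)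
    (hθ : θ * (2 * (n + 1)) ≤ Real.pi) :
    ∃ c C : ℝ, 0 < c ∧ 0 < C ∧ ∀ (G : ℕ → Type) [∀ n, Group (G n)] (sg : ∀ n, ℕ → G n)
      (N : ∀ n, G n → ℤ[X]) (_ : Mk G sg N) (w : List ℕ) (_ : ∀ a ∈ w, a < n)
      (_ : ∀ a < n, a ∈ w)
      (_ : ∀ x y : ℝ, 0 < x → x ≤ Φ → |y| ≤ θ →
        (δ * x) ^ n ≤ ‖det (1 - W (Complex.exp (-(x + y * Complex.I))) n w)‖ ∧
        ‖det (1 - W (Complex.exp (-(x + y * Complex.I))) n w)‖ ≤ 2 ^ n),
      (N n (V (sg n) w)).natTrailingDegree ≤ n ∧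
      ∀ x y : ℝ, 0 < x → x ≤ Φ → |y| ≤ θ →
        c * x ^ n * Real.exp (w.length * x) ≤
          ‖aeval (4 * Complex.sinh (x + y * Complex.I) ^ 2) (half (N n (V (sg n) w)))‖ ∧
        ‖aeval (4 * Complex.sinh (x + y * Complex.I) ^ 2) (half (N n (V (sg n) w)))‖ ≤
          C * (x ^ n)⁻¹ * Real.exp (w.length * x) := by
  refine ⟨δ ^ n * (((n + 1) * Real.exp (n * Φ)) * (2 * Real.exp Φ) ^ n)⁻¹, 2 ^ n * (1 + Φ) ^ n,
    by positivity, by positivity, ?_⟩
  intro G _ sg N h w hw hf hdet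
  have ht : (N n (V (sg n) w)).natTrailingDegree ≤ n := by
    apply trailing_le h hw hf hΦ hδ
    intro x hx hxΦ
    exact (hdet x 0 hx hxΦ (by rw [abs_zero]; exact hθ0.le)).1
  refine ⟨ht, ?_⟩
  intro x y hx hxΦ hy
  obtain ⟨p, hp⟩ : ∃ p, p = N n (V (sg n) w) := ⟨_, rfl⟩
  obtain ⟨hp0, hpar, hnn, h1, -, heval, -⟩ := word h hw hf hp
  have e1 := norm_aeval h hw (x := x) (y := y) hx
  rw [← hp] at e1 ht ⊢
  obtain ⟨d, hd⟩ : ∃ d, d = p.natTrailingDegree := ⟨_, rfl⟩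
  have e2 := heval (2 * Complex.sinh (x + y * Complex.I))
  have e3 : (2 * Complex.sinh (x + y * Complex.I)) ^ 2 =
      4 * Complex.sinh (x + y * Complex.I) ^ 2 := by ring
  rw [e3, ← hd] at e2
  rw [← hd] at ht
  rw [e2, norm_mul, norm_pow] at e1
  obtain ⟨A, hA⟩ : ∃ A, A = ‖aeval (4 * Complex.sinh (x + y * Complex.I) ^ 2) (half p)‖ := ⟨_, rfl⟩
  obtain ⟨Z, hZ⟩ : ∃ Z, Z = ‖2 * Complex.sinh (x + y * Complex.I)‖ := ⟨_, rfl⟩
  obtain ⟨u, hu⟩ : ∃ u, u = ‖U (Complex.exp (-(x + y * Complex.I))) n‖ := ⟨_, rfl⟩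
  obtain ⟨D, hD⟩ : ∃ D, D = ‖det (1 - W (Complex.exp (-(x + y * Complex.I))) n w)‖ := ⟨_, rfl⟩
  obtain ⟨E, hE⟩ : ∃ E, E = Real.exp (w.length * x) := ⟨_, rfl⟩
  have hdet' := hdet x y hx hxΦ hy
  have hu1 := U_norm_ge (x := x) (y := y) n hx (by
    have : |y| * (2 * ((n : ℝ) + 1)) ≤ θ * (2 * (n + 1)) :=
      mul_le_mul_of_nonneg_right hy (by positivity)
    linarith)
  have hu2 := U_norm_le (y := y) n hx
  have hZ1 : 2 * x ≤ Z := by
    rw [hZ, norm_mul]
    have := norm_sinh_ge hx.le y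
    simp only [Complex.norm_ofNat]
    linarith
  have hZ2 : Z ≤ 2 * Real.exp Φ := by
    rw [hZ, norm_mul]
    have := norm_sinh_le hx.le y
    have h2 : Real.exp x ≤ Real.exp Φ := Real.exp_le_exp.2 hxΦ
    simp only [Complex.norm_ofNat]
    linarith
  rw [← hA, ← hZ, ← hu, ← hD, ← hE] at e1
  rw [← hD] at hdet'
  rw [← hu] at hu1 hu2
  rw [← hA, ← hE]
  have hE0 : 0 < E := by rw [hE]; exact Real.exp_pos _
  have hA0 : 0 ≤ A := by rw [hA]; exact norm_nonneg _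
  have hZ0 : 0 < Z := by linarith
  have hu0 : 0 < u := by linarith
  constructor
  · -- lower bound
    have h2 : Z ^ d ≤ (2 * Real.exp Φ) ^ n := by
      have h3 : (1 : ℝ) ≤ 2 * Real.exp Φ := by
        have := Real.one_le_exp hΦ.le
        linarith
      exact (pow_le_pow_left₀ hZ0.le hZ2 d).trans (pow_le_pow_right₀ h3 ht)
    have h3 : u ≤ (n + 1) * Real.exp (n * Φ) := by
      refine hu2.trans (mul_le_mul_of_nonneg_left ?_ (by positivity))
      rw [Real.exp_le_exp]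
      exact mul_le_mul_of_nonneg_left hxΦ (Nat.cast_nonneg n)
    have h4 : (δ * x) ^ n * E ≤ A * (((n + 1) * Real.exp (n * Φ)) * (2 * Real.exp Φ) ^ n) := by
      calc (δ * x) ^ n * E ≤ D * E := mul_le_mul_of_nonneg_right hdet'.1 hE0.le
        _ = Z ^ d * A * u := e1.symm
        _ = A * (u * Z ^ d) := by ring
        _ ≤ _ := mul_le_mul_of_nonneg_left (mul_le_mul h3 h2 (by positivity) (by positivity)) hA0
    have h5 : 0 < ((n + 1) * Real.exp (n * Φ)) * (2 * Real.exp Φ) ^ n := by positivity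
    rw [mul_pow] at h4
    have h6 : δ ^ n * (((n + 1) * Real.exp (n * Φ)) * (2 * Real.exp Φ) ^ n)⁻¹ * x ^ n * E =
        (δ ^ n * x ^ n * E) / (((n + 1) * Real.exp (n * Φ)) * (2 * Real.exp Φ) ^ n) := by
      rw [div_eq_mul_inv]
      ring
    rw [h6, div_le_iff₀ h5]
    exact h4
  · -- upper bound
    have h2 : x ^ d ≤ Z ^ d := pow_le_pow_left₀ hx.le (by linarith) d
    have h3 : x ^ n ≤ Z ^ d * (1 + Φ) ^ n := by
      calc x ^ n = x ^ d * x ^ (n - d) := by rw [← pow_add]; congr 1; omega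
        _ ≤ Z ^ d * (1 + Φ) ^ (n - d) :=
            mul_le_mul h2 (pow_le_pow_left₀ hx.le (by linarith) _) (by positivity) (by positivity)
        _ ≤ Z ^ d * (1 + Φ) ^ n := mul_le_mul_of_nonneg_left
            (pow_le_pow_right₀ (by linarith) (by omega)) (by positivity)
    have h4 : A * Z ^ d ≤ 2 ^ n * E := by
      calc A * Z ^ d = Z ^ d * A * 1 := by ring
        _ ≤ Z ^ d * A * u := mul_le_mul_of_nonneg_left hu1 (by positivity)
        _ = D * E := e1
        _ ≤ _ := mul_le_mul_of_nonneg_right hdet'.2 hE0.le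
    have hxn : 0 < x ^ n := by positivity
    have h5 : 2 ^ n * (1 + Φ) ^ n * (x ^ n)⁻¹ * E = (2 ^ n * (1 + Φ) ^ n * E) / x ^ n := by
      rw [div_eq_mul_inv]
      ring
    rw [h5, le_div_iff₀ hxn]
    calc A * x ^ n ≤ A * (Z ^ d * (1 + Φ) ^ n) := mul_le_mul_of_nonneg_left h3 hA0
      _ = (A * Z ^ d) * (1 + Φ) ^ n := by ring
      _ ≤ (2 ^ n * E) * (1 + Φ) ^ n := mul_le_mul_of_nonneg_right h4 (by positivity)
      _ = _ := by ring

end link

end Pool.Agent.Helper57.EV
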