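import Pool.Agent.Helper57.EV.Tail
import Pool.Agent.Helper43.EV.Plug

/-!
# The four plugs of the project EV
-/

set_option autoImplicit false

namespace Pool.Agent.Helper57.EV

open Polynomial Matrix Pool.Agent.Helper76.Conway Pool.Agent.Helper76.Conway.Top
  Pool.Agent.Helper99.ZB Pool.Agent.Helper43.EV

theorem br_unique {Q : ℤ[X]} {n L p : ℕ} {P : ℝ[X]} (hB : Br Q n L p P) :
    p = Q.natTrailingDegree ∧ P = half Q := by
  have h0 : Q.coeff p ≠ 0 := by
    intro h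
    have h1 := hB.co 0
    have h2 := hB.c0
    rw [h1, mul_zero, zero_add, h] at h2
    norm_num at h2
  have hQ : Q ≠ 0 := by
    rintro rfl
    exact h0 (coeff_zero _)
  have hp : p = Q.natTrailingDegree := by
    apply le_antisymm
    · obtain ⟨j, hj⟩ := hB.van Q.natTrailingDegree (mt trailingCoeff_eq_zero.1 hQ)
      omega
    · exact natTrailingDegree_le_of_ne_zero h0
  refine ⟨hp, ?_⟩
  ext j
  rw [hB.co j, half_coeff, ← hp, add_comm]

variable {G : ℕ → Type} [∀ n, Group (G n)] {sg : ∀ n, ℕ → G n} {N : ∀ n, G n → ℤ[X]}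

theorem trailing_le_of_DB (hDB : DB) (h : Mk G sg N) {n : ℕ} {w : List ℕ} (hw : ∀ a ∈ w, a < n)
    (hf : ∀ a < n, a ∈ w) : (N n (V (sg n) w)).natTrailingDegree ≤ n := by
  obtain ⟨de, hde, th, hth, hdet⟩ := hDB n 1 one_pos
  exact trailing_le h hw hf one_pos hde fun x hx hx1 =>
    (hdet x 0 hx hx1 (by rw [abs_zero]; exact hth.le) w hw hf).1

theorem pbr (hDB : DB) (h : Mk G sg N) : PBr sg N := by
  intro n w hw hf
  obtain ⟨μ, h1, h2⟩ := h.topC n w hw hf
  have hpos := h.pos n w hw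
  have ht := trailing_le_of_DB hDB h hw hf
  obtain ⟨p, hp⟩ : ∃ p, p = N n (V (sg n) w) := ⟨_, rfl⟩
  rw [← hp] at h2 hpos ht ⊢
  obtain ⟨D, hD⟩ := exists_D h2
  refine ⟨p.natTrailingDegree, half p, ?_⟩
  exact
    { nn := half_nonneg hpos
      c0 := half_zero h2 hpos
      deg := by
        rw [(half_natDegree h2 hD).1]
        omega
      low := ht
      ev := aeval_half (ne_zero h2) h2.par
      co := fun j => by rw [half_coeff, add_comm]
      van := fun i hi => by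
        have h3 : p.natTrailingDegree ≤ i := natTrailingDegree_le_of_ne_zero hi
        have h4 := trailing_mod (ne_zero h2) h2.par
        have h5 : (i + μ) % 2 ≠ 1 := fun h6 => hi (h2.par i h6)
        exact ⟨(i - p.natTrailingDegree) / 2, by omega⟩ }

theorem ph1 (hDB : DB) (h : Mk G sg N) : PH1 sg N := by
  intro n Φ hΦ
  obtain ⟨de, hde, th, hth, hdet⟩ := hDB n Φ hΦ
  obtain ⟨θ, hθ⟩ : ∃ θ, θ = min th (Real.pi / (2 * (n + 1))) := ⟨_, rfl⟩
  have hθ0 : 0 < θ := by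
    rw [hθ]
    have := Real.pi_pos
    exact lt_min hth (by positivity)
  have hθ1 : θ * (2 * (n + 1)) ≤ Real.pi := by
    have : θ ≤ Real.pi / (2 * (n + 1)) := by rw [hθ]; exact min_le_right _ _
    rwa [le_div_iff₀ (by positivity)] at this
  obtain ⟨c, C, hc, hC, H⟩ := H1 n hΦ hde hθ0 hθ1
  refine ⟨θ, hθ0, c, hc, C, hC, ?_⟩
  intro w hw hf p P hB x y hx hxΦ hy
  obtain ⟨-, rfl⟩ := br_unique hB
  have := (H G sg N h w hw hf (fun x y hx hxΦ hy =>
    hdet x y hx hxΦ (hy.trans (by rw [hθ]; exact min_le_left _ _)) w hw hf)).2 x y hx hxΦ hy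
  rw [div_eq_mul_inv]
  exact this

theorem ph3 (hT : Tail sg N) (h1 : PH1 sg N) (h : Mk G sg N) : PH3 sg N := by
  intro n Φ hΦ
  obtain ⟨th, hth, c, hc, C, hC, H1'⟩ := h1 n Φ hΦ
  have hs : 0 < 2 * Real.sinh Φ := by
    have := Real.sinh_pos_iff.2 hΦ
    linarith
  have key : ∀ r0 : ℝ, ∃ t : ℝ × ℝ, 0 < r0 → 0 < t.1 ∧ 0 < t.2 ∧
      ∀ w : List ℕ, (∀ a ∈ w, a < n) → (∀ a < n, a ∈ w) → ∀ (p : ℕ) (P : ℝ[X]),
        Br (N n (V (sg n) w)) n w.length p P →
          ∀ r θ : ℝ, r0 ≤ r → r ≤ 4 * Real.sinh Φ ^ 2 →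
            ‖aeval ((r : ℂ) * Complex.exp (θ * Complex.I)) P‖ ≤
              t.2 * Real.exp (-(t.1 * w.length * (1 - Real.cos θ))) * P.eval r := by
    intro r0
    by_cases hr0 : 0 < r0
    · have hρ0 : 0 < Real.sqrt r0 := Real.sqrt_pos.2 hr0
      obtain ⟨cT, hcT, CT, hCT, hT'⟩ := hT n (Real.sqrt r0) (2 * Real.sinh Φ) hρ0
      obtain ⟨C3, hC3, H⟩ := H3 n (Φ := Φ) (cT := cT) hc hρ0 hs le_rfl hCT
      refine ⟨(cT, C3), fun _ => ⟨hcT, hC3, ?_⟩⟩
      intro w hw hf p P hB r θ hr hr'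
      have hlow := hB.low
      have hp := (br_unique hB).1
      obtain ⟨-, rfl⟩ := br_unique hB
      rw [hp] at hlow
      refine H G sg N h w hw hf hlow ?_ ?_ r θ ?_ ?_
      · intro x hx hxΦ
        exact (H1' w hw hf p _ hB x 0 hx hxΦ (by rw [abs_zero]; exact hth.le)).1
      · intro x θ' hx0 hx1
        have := hT' w hw x θ' hx0 hx1
        have e : (((θ' / 2 : ℝ) : ℂ)) = (θ' : ℂ) / 2 := by push_cast; rfl
        rw [e]
        exact this
      · rw [Real.sq_sqrt hr0.le]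
        exact hr
      · have : (2 * Real.sinh Φ) ^ 2 = 4 * Real.sinh Φ ^ 2 := by ring
        rw [this]
        exact hr'
    · exact ⟨(0, 0), fun h => absurd h hr0⟩
  choose t ht using key
  refine ⟨fun r => (t r).1, fun r => (t r).2, fun r hr => ⟨(ht r hr).1, (ht r hr).2.1⟩, ?_⟩
  intro w hw hf p P hB r0 hr0 r θ hr hr'
  exact (ht r0 hr0).2.2 w hw hf p P hB r θ hr hr'

theorem ph4 (h : Mk G sg N) : PH4 sg N := by
  intro n
  refine ⟨66 * (65 + 2 * n), ?_⟩
  intro w hL hw hf p P hB k hk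
  obtain ⟨-, rfl⟩ := br_unique hB
  have hword := word h hw hf rfl
  obtain ⟨-, -, hnn, -, -, -, hlc⟩ := hword
  obtain ⟨D, hD⟩ : ∃ D, D = (half (N n (V (sg n) w))).natDegree := ⟨_, rfl⟩
  rw [← hD] at hk hlc
  cases k with
  | zero =>
    exfalso
    have h1 := hB.deg
    have h2 := hB.low
    rw [← hD] at h1
    have h3 : (66 : ℝ) * D ≤ w.length := by
      push_cast at hk
      linarith
    have h4 : 66 * D ≤ w.length := by exact_mod_cast h3
    omega
  | succ k =>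
    have h2 : 65 * D + 2 * n ≤ w.length + 65 * (k + 1) := by
      have h3 : (66 : ℝ) * D ≤ 66 * (k + 1) + w.length := by
        push_cast at hk
        linarith
      have h4 : 66 * D ≤ 66 * (k + 1) + w.length := by exact_mod_cast h3
      omega
    have := hlc k h2
    exact this

end Pool.Agent.Helper57.EV
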