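import Pool.Agent.Helper57.EV.Link

/-!
# The tail bound for `half p`, from the tail bound for the Conway polynomial
-/

set_option autoImplicit false

namespace Pool.Agent.Helper57.EV

open Polynomial Matrix Pool.Agent.Helper76.Conway Pool.Agent.Helper76.Conway.Top
  Pool.Agent.Helper99.ZB

/-- real point of a polynomial with non negative coefficients -/
theorem norm_aeval_real {P : ℝ[X]} (hP : ∀ k, 0 ≤ P.coeff k) {r : ℝ} (hr : 0 ≤ r) :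
    ‖aeval (r : ℂ) P‖ = P.eval r := by
  have e : aeval (r : ℂ) P = ((P.eval r : ℝ) : ℂ) := by
    have := Polynomial.aeval_algebraMap_apply ℂ r P
    simpa [Polynomial.coe_aeval_eq_eval] using this
  rw [e, Complex.norm_real, Real.norm_of_nonneg]
  rw [eval_eq_sum_range]
  exact Finset.sum_nonneg fun k _ => mul_nonneg (hP k) (pow_nonneg hr k)

/-- **H3.** The tail bound for `half p` on `ρ0 ^ 2 ≤ r ≤ ρ1 ^ 2`. -/
theorem H3 (n : ℕ) {Φ c₁ ρ0 ρ1 cT CT : ℝ} (hc₁ : 0 < c₁) (hρ0 : 0 < ρ0) (hρ10 : 0 < ρ1)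
    (hρ1 : ρ1 ≤ 2 * Real.sinh Φ) (hCT : 0 < CT) :
    ∃ C3 : ℝ, 0 < C3 ∧ ∀ (G : ℕ → Type) [∀ n, Group (G n)] (sg : ∀ n, ℕ → G n)
      (N : ∀ n, G n → ℤ[X]) (_ : Mk G sg N) (w : List ℕ) (_ : ∀ a ∈ w, a < n)
      (_ : ∀ a < n, a ∈ w)
      (_ : (N n (V (sg n) w)).natTrailingDegree ≤ n)
      (_ : ∀ x : ℝ, 0 < x → x ≤ Φ → c₁ * x ^ n * Real.exp (w.length * x) ≤
          ‖aeval (4 * Complex.sinh (x + (0 : ℝ) * Complex.I) ^ 2) (half (N n (V (sg n) w)))‖)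
      (_ : ∀ x θ : ℝ, ρ0 ≤ 2 * Real.sinh x → 2 * Real.sinh x ≤ ρ1 →
        ‖aeval (((2 * Real.sinh x : ℝ) : ℂ) * Complex.exp (((θ / 2 : ℝ) : ℂ) * Complex.I))
          (N n (V (sg n) w))‖ ≤
          CT * Real.exp (-(cT * w.length * (1 - Real.cos θ))) * Real.exp (w.length * x)),
      ∀ r θ : ℝ, ρ0 ^ 2 ≤ r → r ≤ ρ1 ^ 2 →
        ‖aeval ((r : ℂ) * Complex.exp (θ * Complex.I)) (half (N n (V (sg n) w)))‖ ≤
          C3 * Real.exp (-(cT * w.length * (1 - Real.cos θ))) *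
            (half (N n (V (sg n) w))).eval r := by
  obtain ⟨x0, hx0⟩ : ∃ x0, x0 = Real.arsinh (ρ0 / 2) := ⟨_, rfl⟩
  have hx0pos : 0 < x0 := by
    rw [hx0]
    exact Real.arsinh_pos_iff.2 (by linarith)
  have hmin : 0 < min 1 ρ0 := lt_min one_pos hρ0
  refine ⟨CT * ((min 1 ρ0) ^ n * (c₁ * x0 ^ n))⁻¹, by positivity, ?_⟩
  intro G _ sg N h w hw hf ht hlow htail r θ hr0 hr1
  obtain ⟨p, hp⟩ : ∃ p, p = N n (V (sg n) w) := ⟨_, rfl⟩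
  obtain ⟨hp0, hpar, hnn, h1, -, heval, -⟩ := word h hw hf hp
  rw [← hp] at ht hlow htail ⊢
  have hr : 0 < r := lt_of_lt_of_le (by positivity) hr0
  obtain ⟨ρ, hρ⟩ : ∃ ρ, ρ = Real.sqrt r := ⟨_, rfl⟩
  have hρpos : 0 < ρ := by rw [hρ]; exact Real.sqrt_pos.2 hr
  have hρr : ρ ^ 2 = r := by rw [hρ]; exact Real.sq_sqrt hr.le
  have hρ0' : ρ0 ≤ ρ := by rw [hρ]; exact Real.le_sqrt_of_sq_le hr0
  have hρ1' : ρ ≤ ρ1 := by
    rw [hρ]
    exact Real.sqrt_le_iff.2 ⟨hρ10.le, hr1⟩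
  obtain ⟨x, hx⟩ : ∃ x, x = Real.arsinh (ρ / 2) := ⟨_, rfl⟩
  have hsx : 2 * Real.sinh x = ρ := by rw [hx, Real.sinh_arsinh]; ring
  have hx0x : x0 ≤ x := by
    rw [hx0, hx]
    exact Real.arsinh_le_arsinh.2 (by linarith)
  have hxpos : 0 < x := by linarith
  have hxΦ : x ≤ Φ := by
    rw [← Real.sinh_le_sinh]
    linarith
  have h2 := hlow x hxpos hxΦ
  have e1 : 4 * Complex.sinh (x + (0 : ℝ) * Complex.I) ^ 2 = (r : ℂ) := by
    have e2 : Complex.sinh (x + (0 : ℝ) * Complex.I) = ((Real.sinh x : ℝ) : ℂ) := by simp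
    rw [e2, ← hρr, ← hsx]
    push_cast
    ring
  rw [e1, norm_aeval_real hnn hr.le] at h2
  have h3 := htail x θ (by rw [hsx]; exact hρ0') (by rw [hsx]; exact hρ1')
  rw [hsx] at h3
  have e2 : ((ρ : ℂ) * Complex.exp (((θ / 2 : ℝ) : ℂ) * Complex.I)) ^ 2 =
      (r : ℂ) * Complex.exp (θ * Complex.I) := by
    rw [mul_pow, ← Complex.exp_nat_mul, ← hρr]
    push_cast
    congr 2
    ring
  have e3 := heval ((ρ : ℂ) * Complex.exp (((θ / 2 : ℝ) : ℂ) * Complex.I))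
  rw [e2] at e3
  have e4 : ‖(ρ : ℂ) * Complex.exp (((θ / 2 : ℝ) : ℂ) * Complex.I)‖ = ρ := by
    rw [norm_mul, Complex.norm_exp_ofReal_mul_I, mul_one, Complex.norm_real,
      Real.norm_of_nonneg hρpos.le]
  rw [e3, norm_mul, norm_pow, e4] at h3
  obtain ⟨d, hd⟩ : ∃ d, d = p.natTrailingDegree := ⟨_, rfl⟩
  obtain ⟨A, hA⟩ : ∃ A, A = ‖aeval ((r : ℂ) * Complex.exp (θ * Complex.I)) (half p)‖ := ⟨_, rfl⟩
  obtain ⟨B, hB⟩ : ∃ B, B = (half p).eval r := ⟨_, rfl⟩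
  obtain ⟨E, hE⟩ : ∃ E, E = Real.exp (w.length * x) := ⟨_, rfl⟩
  obtain ⟨T, hT⟩ : ∃ T, T = Real.exp (-(cT * w.length * (1 - Real.cos θ))) := ⟨_, rfl⟩
  rw [← hd, ← hA, ← hT, ← hE] at h3
  rw [← hB, ← hE] at h2
  rw [← hd] at ht
  rw [← hA, ← hB, ← hT]
  have hE0 : 0 < E := by rw [hE]; exact Real.exp_pos _
  have hT0 : 0 < T := by rw [hT]; exact Real.exp_pos _
  have hA0 : 0 ≤ A := by rw [hA]; exact norm_nonneg _
  have h4 : (min 1 ρ0) ^ n ≤ ρ ^ d := by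
    calc (min 1 ρ0) ^ n ≤ (min 1 ρ0) ^ d :=
          pow_le_pow_of_le_one hmin.le (min_le_left _ _) ht
      _ ≤ ρ ^ d := pow_le_pow_left₀ hmin.le ((min_le_right _ _).trans hρ0') d
  have h5 : c₁ * x0 ^ n * E ≤ B := by
    refine le_trans ?_ h2
    exact mul_le_mul_of_nonneg_right (mul_le_mul_of_nonneg_left
      (pow_le_pow_left₀ hx0pos.le hx0x n) hc₁.le) hE0.le
  have hM : 0 < (min 1 ρ0) ^ n * (c₁ * x0 ^ n) := by positivity
  have h6 : A * ((min 1 ρ0) ^ n * (c₁ * x0 ^ n)) ≤ CT * T * B := by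
    calc A * ((min 1 ρ0) ^ n * (c₁ * x0 ^ n))
        = ((min 1 ρ0) ^ n * A) * (c₁ * x0 ^ n) := by ring
      _ ≤ (ρ ^ d * A) * (c₁ * x0 ^ n) :=
          mul_le_mul_of_nonneg_right (mul_le_mul_of_nonneg_right h4 hA0) (by positivity)
      _ ≤ (CT * T * E) * (c₁ * x0 ^ n) := mul_le_mul_of_nonneg_right h3 (by positivity)
      _ = CT * T * (c₁ * x0 ^ n * E) := by ring
      _ ≤ CT * T * B := mul_le_mul_of_nonneg_left h5 (by positivity)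
  have h7 : CT * ((min 1 ρ0) ^ n * (c₁ * x0 ^ n))⁻¹ * T * B =
      (CT * T * B) / ((min 1 ρ0) ^ n * (c₁ * x0 ^ n)) := by
    rw [div_eq_mul_inv]
    ring
  rw [h7, le_div_iff₀ hM]
  exact h6

end Pool.Agent.Helper57.EV
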